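import Mathlib

set_option autoImplicit false

/-! Metric facts on free groups: the reduced length is a tree metric. -/

namespace Pool.Agent.H59.FreeMetric

open FreeGroup

variable {X : Type*} [DecidableEq X]

/-- Length of the longest common initial segment of two lists. -/
def lcp {α : Type*} [DecidableEq α] : List α → List α → ℕ
  | [], _ => 0
  | _ :: _, [] => 0
  | a :: l, b :: m => if a = b then lcp l m + 1 else 0

lemma lcp_comm {α : Type*} [DecidableEq α] : ∀ l m : List α, lcp l m = lcp m l
  | [], [] => rfl
  | [], _ :: _ => by simp [lcp]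
  | _ :: _, [] => by simp [lcp]
  | a :: l, b :: m => by
      by_cases h : a = b
      · subst h; simp [lcp, lcp_comm l m]
      · simp [lcp, h, Ne.symm h]

lemma lcp_ultra {α : Type*} [DecidableEq α] : ∀ l m k : List α,
    min (lcp l m) (lcp m k) ≤ lcp l k
  | [], _, _ => by simp [lcp]
  | _ :: _, [], _ => by simp [lcp]
  | _ :: _, _ :: _, [] => by simp [lcp]
  | a :: l, b :: m, c :: k => by
      by_cases h1 : a = b
      · subst h1
        by_cases h2 : a = c
        · subst h2
          have := lcp_ultra l m k
          simp only [lcp, if_true]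
          omega
        · simp [lcp, h2]
      · simp [lcp, h1]

lemma norm_eq_of_isReduced {L : List (X × Bool)} (h : IsReduced L) :
    (mk L).norm = L.length := by
  rw [FreeGroup.norm, toWord_mk, h.reduce_eq]

lemma isReduced_invRev {L : List (X × Bool)} (h : IsReduced L) : IsReduced (invRev L) := by
  rw [isReduced_iff_reduce_eq] at h ⊢
  rw [reduce_invRev, h]

lemma isReduced_invRev_append {a b : X × Bool} {L M : List (X × Bool)}
    (hL : IsReduced (a :: L)) (hM : IsReduced (b :: M)) (hab : a ≠ b) :
    IsReduced (invRev (a :: L) ++ b :: M) := by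
  have h1 : IsReduced (invRev (a :: L)) := isReduced_invRev hL
  unfold FreeGroup.IsReduced at *
  rw [List.isChain_append]
  refine ⟨h1, hM, ?_⟩
  intro x hx y hy
  have hx' : x = (a.1, !a.2) := by
    rw [invRev_cons] at hx
    simpa [invRev] using hx.symm
  have hy' : y = b := by simpa using hy.symm
  rw [hx', hy']
  intro h3
  rcases a with ⟨a1, a2⟩
  rcases b with ⟨b1, b2⟩
  simp only at h3 ⊢
  subst h3
  cases a2 <;> cases b2 <;> simp_all

/-- For reduced words, the distance is the sum of the lengths minus twice the length of the
longest common initial segment. -/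
lemma norm_inv_mul_mk : ∀ {L M : List (X × Bool)}, IsReduced L → IsReduced M →
    ((mk L)⁻¹ * mk M).norm + 2 * lcp L M = L.length + M.length
  | [], M, _, hM => by
      have : (mk ([] : List (X × Bool)))⁻¹ * mk M = mk M := by
        rw [← one_eq_mk]; simp
      rw [this, norm_eq_of_isReduced hM]
      simp [lcp]
  | a :: L, [], hL, _ => by
      have : (mk (a :: L))⁻¹ * mk ([] : List (X × Bool)) = (mk (a :: L))⁻¹ := by
        rw [← one_eq_mk]; simp
      rw [this, norm_inv_eq, norm_eq_of_isReduced hL]
      simp [lcp]
  | a :: L, b :: M, hL, hM => by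
      by_cases hab : a = b
      · subst hab
        have hL' : IsReduced L := by
          unfold FreeGroup.IsReduced at *
          exact hL.tail
        have hM' : IsReduced M := by
          unfold FreeGroup.IsReduced at *
          exact hM.tail
        have ih := norm_inv_mul_mk hL' hM'
        have e1 : (mk (a :: L))⁻¹ * mk (a :: M) = (mk L)⁻¹ * mk M := by
          have h1 : mk (a :: L) = mk [a] * mk L := by rw [mul_mk]; rfl
          have h2 : mk (a :: M) = mk [a] * mk M := by rw [mul_mk]; rfl
          rw [h1, h2]
          group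
        rw [e1]
        simp only [lcp, if_true, List.length_cons]
        omega
      · have h1 : (mk (a :: L))⁻¹ * mk (b :: M) = mk (invRev (a :: L) ++ b :: M) := by
          rw [inv_mk, mul_mk]
        rw [h1, norm_eq_of_isReduced (isReduced_invRev_append hL hM hab)]
        simp [lcp, hab, List.length_append]

/-- Gromov product formula. -/
lemma norm_inv_mul (x y : FreeGroup X) :
    (x⁻¹ * y).norm + 2 * lcp x.toWord y.toWord = x.norm + y.norm := by
  have h := norm_inv_mul_mk (isReduced_toWord (x := x)) (isReduced_toWord (x := y))
  rw [mk_toWord, mk_toWord] at h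
  exact h

/-- The ear lemma: if `y` and `z` are within `D` of `x` and no farther from the identity than
`x`, then `y` and `z` are within `D` of each other. -/
lemma ear (D : ℕ) (x y z : FreeGroup X) (hy : y.norm ≤ x.norm) (hz : z.norm ≤ x.norm)
    (hxy : (x⁻¹ * y).norm ≤ D) (hxz : (x⁻¹ * z).norm ≤ D) : (y⁻¹ * z).norm ≤ D := by
  have h1 := norm_inv_mul x y
  have h2 := norm_inv_mul x z
  have h3 := norm_inv_mul y z
  have h4 := lcp_ultra y.toWord x.toWord z.toWord
  rw [lcp_comm y.toWord x.toWord] at h4
  omega

lemma norm_inv_mul_comm (x y : FreeGroup X) : (x⁻¹ * y).norm = (y⁻¹ * x).norm := by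
  rw [← norm_inv_eq (x := x⁻¹ * y)]
  congr 1
  group

/-- Elements all of whose letters lie in a given set form a subgroup. -/
def lettersIn (S : Set X) : Subgroup (FreeGroup X) where
  carrier := {g | ∀ p ∈ g.toWord, p.1 ∈ S}
  one_mem' := by simp
  mul_mem' := by
    intro a b ha hb p hp
    have := (toWord_mul_sublist a b).subset hp
    rw [List.mem_append] at this
    rcases this with h | h
    · exact ha p h
    · exact hb p h
  inv_mem' := by
    intro a ha p hp
    simp only [toWord_inv, invRev, List.mem_reverse, List.mem_map] at hp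
    obtain ⟨q, hq, rfl⟩ := hp
    exact ha q hq

/-- Balls in the free group on finitely many letters are finite. -/
lemma finite_ball (S : Set X) (hS : S.Finite) (D : ℕ) :
    {g : FreeGroup X | g ∈ lettersIn S ∧ g.norm ≤ D}.Finite := by
  classical
  have hfin : Finite S := hS
  have h1 : {l : List (S × Bool) | l.length ≤ D}.Finite := List.finite_length_le _ D
  have h2 : {g : FreeGroup X | g ∈ lettersIn S ∧ g.norm ≤ D} ⊆
      (fun l : List (S × Bool) => mk (l.map (fun p => ((p.1 : X), p.2)))) ''
        {l : List (S × Bool) | l.length ≤ D} := by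
    rintro g ⟨hg, hgD⟩
    have key : ∀ L : List (X × Bool), (∀ p ∈ L, p.1 ∈ S) →
        ∃ l : List (S × Bool), l.length = L.length ∧
          l.map (fun p => ((p.1 : X), p.2)) = L := by
      intro L
      induction L with
      | nil => intro _; exact ⟨[], rfl, rfl⟩
      | cons a L ih =>
        intro h
        obtain ⟨l, hl1, hl2⟩ := ih (fun p hp => h p (List.mem_cons_of_mem _ hp))
        refine ⟨(⟨a.1, h a List.mem_cons_self⟩, a.2) :: l, ?_, ?_⟩
        · simp [hl1]
        · simp [hl2]
    obtain ⟨l, hl1, hl2⟩ := key g.toWord hg
    refine ⟨l, ?_, ?_⟩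
    · change l.length ≤ D
      rw [hl1]; exact hgD
    · change mk _ = g
      rw [hl2, mk_toWord]
  exact (h1.image _).subset h2

end Pool.Agent.H59.FreeMetric
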