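import Mathlib

set_option autoImplicit false

/-! Subgroups all of whose subgroups are finitely generated, and relative hypercentres. -/

namespace Pool.Agent.H59.Noeth

open Subgroup
open scoped commutatorElement

section noeth

variable {U V : Type*} [Group U] [Group V]

/-- Every subgroup of `M` is finitely generated. -/
def Noeth (M : Subgroup U) : Prop := ∀ K : Subgroup U, K ≤ M → K.FG

lemma Noeth.mono {M N : Subgroup U} (h : Noeth M) (hN : N ≤ M) : Noeth N :=
  fun K hK => h K (hK.trans hN)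

lemma fg_ext (f : U →* V) (K : Subgroup U) (h1 : (K.map f).FG) (h2 : (K ⊓ f.ker).FG) :
    K.FG := by
  classical
  rw [Subgroup.fg_iff] at h1 h2 ⊢
  obtain ⟨S1, hS1, hS1f⟩ := h1
  obtain ⟨S2, hS2, hS2f⟩ := h2
  have h3 : ∀ v ∈ S1, ∃ u ∈ K, f u = v := by
    intro v hv
    have : v ∈ K.map f := by rw [← hS1]; exact subset_closure hv
    exact this
  choose! g hgK hgf using h3
  refine ⟨g '' S1 ∪ S2, ?_, (hS1f.image g).union hS2f⟩
  apply le_antisymm
  · rw [closure_le]
    rintro x (⟨v, hv, rfl⟩ | hx)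
    · exact hgK v hv
    · have : x ∈ K ⊓ f.ker := by rw [← hS2]; exact subset_closure hx
      exact this.1
  · intro x hx
    have h4 : K.map f ≤ (closure (g '' S1 ∪ S2)).map f := by
      rw [← hS1, closure_le]
      intro v hv
      exact ⟨g v, subset_closure (Or.inl ⟨v, hv, rfl⟩), hgf v hv⟩
    obtain ⟨y, hy, hyx⟩ := h4 ⟨x, hx, rfl⟩
    have hyK : y ∈ K := by
      have : closure (g '' S1 ∪ S2) ≤ K := by
        rw [closure_le]
        rintro x (⟨v, hv, rfl⟩ | hx)
        · exact hgK v hv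
        · have : x ∈ K ⊓ f.ker := by rw [← hS2]; exact subset_closure hx
          exact this.1
      exact this hy
    have h5 : y⁻¹ * x ∈ K ⊓ f.ker := by
      rw [Subgroup.mem_inf]
      refine ⟨mul_mem (inv_mem hyK) hx, ?_⟩
      rw [MonoidHom.mem_ker, map_mul, map_inv, hyx, inv_mul_cancel]
    rw [← hS2] at h5
    have h6 : y⁻¹ * x ∈ closure (g '' S1 ∪ S2) := closure_mono Set.subset_union_right h5
    have h7 := mul_mem hy h6
    rwa [mul_inv_cancel_left] at h7

lemma noeth_ext (f : U →* V) (M : Subgroup U) (h1 : Noeth (M.map f))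
    (h2 : Noeth (M ⊓ f.ker)) : Noeth M := by
  intro K hK
  apply fg_ext f K
  · exact h1 _ (map_mono hK)
  · exact h2 _ (inf_le_inf_right _ hK)

lemma noeth_closure_of_comm (X : Set U) (hX : X.Finite)
    (hcomm : ∀ x ∈ X, ∀ y ∈ X, x * y = y * x) : Noeth (closure X) := by
  intro K hK
  have hmc : IsMulCommutative (closure X) := isMulCommutative_closure hcomm
  let _ : CommGroup (closure X) := { (inferInstance : Group (closure X)) with
    mul_comm := fun a b => hmc.is_comm.comm a b }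
  have hfg : Group.FG (closure X) := by
    have : Finite X := hX
    exact Group.closure_finite_fg X
  have : AddGroup.FG (Additive (closure X)) := inferInstance
  have hmod : Module.Finite ℤ (Additive (closure X)) := by
    exact Module.Finite.iff_addGroup_fg.mpr this
  have hnoeth : IsNoetherian ℤ (Additive (closure X)) := inferInstance
  let L : Subgroup (closure X) := K.subgroupOf (closure X)
  let LA : AddSubgroup (Additive (closure X)) := Subgroup.toAddSubgroup L
  have h1 : (AddSubgroup.toIntSubmodule LA).FG := hnoeth.noetherian _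
  have h2 : LA.FG := by
    rw [Submodule.fg_iff_addSubgroup_fg] at h1
    simpa using h1
  have h3 : L.FG := by
    rw [Subgroup.fg_iff_add_fg]
    exact h2
  have h4 : (L.map (closure X).subtype).FG := by
    obtain ⟨S, hS, hSf⟩ := (Subgroup.fg_iff _).mp h3
    rw [Subgroup.fg_iff]
    refine ⟨(closure X).subtype '' S, ?_, hSf.image _⟩
    rw [← hS, MonoidHom.map_closure]
  have h5 : L.map (closure X).subtype = K := by
    rw [subgroupOf_map_subtype]
    exact inf_eq_left.mpr hK
  rw [h5] at h4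
  exact h4

end noeth

section relc

variable {U : Type*} [Group U]

/-- Elements whose commutators with `U₀` lie in `N`. -/
def stepC (U₀ N : Subgroup U) (h0 : U₀.Normal) (hN : N.Normal) : Subgroup U where
  carrier := {x | ∀ y ∈ U₀, x * y * x⁻¹ * y⁻¹ ∈ N}
  one_mem' := by
    intro y _
    simp
  mul_mem' := by
    intro a b ha hb y hy
    have h1 := ha (b * y * b⁻¹) (h0.conj_mem y hy b)
    have h2 := hb y hy
    have h3 := mul_mem h1 h2
    have h4 : a * (b * y * b⁻¹) * a⁻¹ * (b * y * b⁻¹)⁻¹ * (b * y * b⁻¹ * y⁻¹) =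
        a * b * y * (a * b)⁻¹ * y⁻¹ := by group
    rwa [h4] at h3
  inv_mem' := by
    intro x hx y hy
    have h1 := hN.conj_mem _ (inv_mem (hx y hy)) x⁻¹
    have h2 : x⁻¹ * (x * y * x⁻¹ * y⁻¹)⁻¹ * x⁻¹⁻¹ = x⁻¹ * y * x⁻¹⁻¹ * y⁻¹ := by group
    rwa [h2] at h1

lemma stepC_normal (U₀ N : Subgroup U) (h0 : U₀.Normal) (hN : N.Normal) :
    (stepC U₀ N h0 hN).Normal := by
  constructor
  intro x hx g y hy
  have h1 := hx (g⁻¹ * y * g) (by simpa using h0.conj_mem y hy g⁻¹)
  have h2 := hN.conj_mem _ h1 g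
  have h3 : g * (x * (g⁻¹ * y * g) * x⁻¹ * (g⁻¹ * y * g)⁻¹) * g⁻¹ =
      g * x * g⁻¹ * y * (g * x * g⁻¹)⁻¹ * y⁻¹ := by group
  rwa [h3] at h2

/-- The relative hypercentral series of `U` with respect to the normal subgroup `U₀`, with
proofs of normality. -/
def relCAux (U₀ : Subgroup U) (h0 : U₀.Normal) : ℕ → Σ' N : Subgroup U, N.Normal
  | 0 => ⟨⊥, inferInstance⟩
  | n + 1 => ⟨stepC U₀ (relCAux U₀ h0 n).1 h0 (relCAux U₀ h0 n).2,
      stepC_normal U₀ (relCAux U₀ h0 n).1 h0 (relCAux U₀ h0 n).2⟩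

/-- The relative hypercentral series. -/
def relC (U₀ : Subgroup U) (h0 : U₀.Normal) (n : ℕ) : Subgroup U := (relCAux U₀ h0 n).1

lemma relC_normal (U₀ : Subgroup U) (h0 : U₀.Normal) (n : ℕ) : (relC U₀ h0 n).Normal :=
  (relCAux U₀ h0 n).2

lemma relC_zero (U₀ : Subgroup U) (h0 : U₀.Normal) : relC U₀ h0 0 = ⊥ := rfl

lemma mem_relC_succ (U₀ : Subgroup U) (h0 : U₀.Normal) (n : ℕ) (x : U) :
    x ∈ relC U₀ h0 (n + 1) ↔ ∀ y ∈ U₀, x * y * x⁻¹ * y⁻¹ ∈ relC U₀ h0 n := Iff.rfl

/-- It is enough to test commutators with generators. -/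
lemma comm_mem_of_closure (N : Subgroup U) (hN : N.Normal) (Y : Set U) (x : U)
    (h : ∀ y ∈ Y, x * y * x⁻¹ * y⁻¹ ∈ N) : ∀ y ∈ closure Y, x * y * x⁻¹ * y⁻¹ ∈ N := by
  intro y hy
  induction hy using closure_induction with
  | mem y hy => exact h y hy
  | one => simp
  | mul a b _ _ ha hb =>
    have h1 := hN.conj_mem _ hb a
    have h2 := mul_mem ha h1
    have h3 : x * a * x⁻¹ * a⁻¹ * (a * (x * b * x⁻¹ * b⁻¹) * a⁻¹) =
        x * (a * b) * x⁻¹ * (a * b)⁻¹ := by group
    rwa [h3] at h2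
  | inv a _ ha =>
    have h1 := hN.conj_mem _ (inv_mem ha) a⁻¹
    have h2 : a⁻¹ * (x * a * x⁻¹ * a⁻¹)⁻¹ * a⁻¹⁻¹ = x * a⁻¹ * x⁻¹ * a⁻¹⁻¹ := by group
    rwa [h2] at h1

/-- Iterated commutators of elements of `X` with elements of `Y`. -/
def iterC (X Y : Set U) : ℕ → Set U
  | 0 => X
  | n + 1 => Set.image2 (fun x y => x * y * x⁻¹ * y⁻¹) (iterC X Y n) Y

lemma iterC_finite {X Y : Set U} (hX : X.Finite) (hY : Y.Finite) :
    ∀ n, (iterC X Y n).Finite
  | 0 => hX
  | n + 1 => Set.Finite.image2 _ (iterC_finite hX hY n) hY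

lemma iterC_image {V : Type*} [Group V] (f : U →* V) (X Y : Set U) :
    ∀ n, f '' (iterC X Y n) = iterC (f '' X) (f '' Y) n
  | 0 => rfl
  | n + 1 => by
    simp only [iterC]
    rw [← iterC_image f X Y n, Set.image_image2, Set.image2_image_left, Set.image2_image_right]
    simp only [map_mul, map_inv]

lemma iterC_of_mem (U₀ : Subgroup U) (h0 : U₀.Normal) (X Y : Set U) (hY : Y ⊆ U₀) :
    ∀ n m, (X ⊆ (relC U₀ h0 (n + m) : Set U)) → iterC X Y n ⊆ (relC U₀ h0 m : Set U)
  | 0, m, h => by simpa [iterC] using h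
  | n + 1, m, h => by
    have h1 := iterC_of_mem U₀ h0 X Y hY n (m + 1) (by
      have : n + (m + 1) = n + 1 + m := by ring
      rw [this]; exact h)
    rintro _ ⟨x, hx, y, hy, rfl⟩
    exact h1 hx y (hY hy)

lemma mem_of_iterC (U₀ : Subgroup U) (h0 : U₀.Normal) (X Y : Set U) (hY : closure Y = U₀) :
    ∀ n m, iterC X Y n ⊆ (relC U₀ h0 m : Set U) → X ⊆ (relC U₀ h0 (n + m) : Set U)
  | 0, m, h => by simpa [iterC] using h
  | n + 1, m, h => by
    have h1 : iterC X Y n ⊆ (relC U₀ h0 (m + 1) : Set U) := by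
      intro x hx
      rw [SetLike.mem_coe, mem_relC_succ]
      intro y hy
      rw [← hY] at hy
      refine comm_mem_of_closure _ (relC_normal U₀ h0 m) Y x ?_ y hy
      intro y hy
      exact h ⟨x, hx, y, hy, rfl⟩
    have h2 := mem_of_iterC U₀ h0 X Y hY n (m + 1) h1
    have : n + 1 + m = n + (m + 1) := by ring
    rw [this]; exact h2

/-- Normal closures of finite sets of relatively hypercentral elements of `U₀` are
Noetherian. -/
theorem noeth_normalClosure (U₀ : Subgroup U) (h0 : U₀.Normal) (Y T : Set U)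
    (hYf : Y.Finite) (hTf : T.Finite) (hY : closure Y = U₀) (h1T : (1 : U) ∈ T)
    (hT : ∀ u : U, ∃ t ∈ T, ∃ z ∈ U₀, u = t * z) :
    ∀ (c : ℕ) (X : Set U), X.Finite → X ⊆ U₀ → X ⊆ (relC U₀ h0 c : Set U) →
      Noeth (normalClosure X)
  | 0, X, _, _, hX => by
    have h1 : normalClosure X = ⊥ := by
      rw [eq_bot_iff]
      apply normalClosure_le_normal
      exact hX
    rw [h1]
    intro K hK
    have : K = ⊥ := eq_bot_iff.mpr hK
    rw [this, Subgroup.fg_iff]
    exact ⟨∅, Subgroup.closure_empty, Set.finite_empty⟩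
  | c + 1, X, hXf, hX0, hX => by
    -- the commutators
    let X' : Set U := Set.image2 (fun x y => x * y * x⁻¹ * y⁻¹)
      (Set.image2 (fun t x => t * x * t⁻¹) T X) Y
    have hX'f : X'.Finite := Set.Finite.image2 _ (Set.Finite.image2 _ hTf hXf) hYf
    have hYU : Y ⊆ U₀ := by rw [← hY]; exact subset_closure
    have hX'0 : X' ⊆ U₀ := by
      rintro _ ⟨_, ⟨t, ht, x, hx, rfl⟩, y, hy, rfl⟩
      have h1 : t * x * t⁻¹ ∈ U₀ := h0.conj_mem x (hX0 hx) t
      exact mul_mem (mul_mem (mul_mem h1 (hYU hy)) (inv_mem h1)) (inv_mem (hYU hy))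
    have hX' : X' ⊆ (relC U₀ h0 c : Set U) := by
      rintro _ ⟨_, ⟨t, ht, x, hx, rfl⟩, y, hy, rfl⟩
      have h1 : t * x * t⁻¹ ∈ relC U₀ h0 (c + 1) :=
        (relC_normal U₀ h0 (c + 1)).conj_mem x (hX hx) t
      exact (mem_relC_succ U₀ h0 c _).mp h1 y (hYU hy)
    have ih := noeth_normalClosure U₀ h0 Y T hYf hTf hY h1T hT c X' hX'f hX'0 hX'
    set M' := normalClosure X' with hM'
    let f : U →* U ⧸ M' := QuotientGroup.mk' M'
    have hfs : Function.Surjective f := QuotientGroup.mk'_surjective M'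
    apply noeth_ext f
    · -- the image is generated by commuting elements
      let X'' : Set (U ⧸ M') := f '' (Set.image2 (fun t x => t * x * t⁻¹) T X)
      have hX''f : X''.Finite := (Set.Finite.image2 _ hTf hXf).image f
      have hcommY : ∀ t ∈ T, ∀ x ∈ X, ∀ y ∈ U₀,
          f (t * x * t⁻¹) * f y = f y * f (t * x * t⁻¹) := by
        intro t ht x hx y hy
        have h1 : t * x * t⁻¹ * y * (t * x * t⁻¹)⁻¹ * y⁻¹ ∈ M' := by
          rw [← hY] at hy
          apply comm_mem_of_closure M' normalClosure_normal Y (t * x * t⁻¹) _ y hy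
          intro y' hy'
          exact subset_normalClosure ⟨_, ⟨t, ht, x, hx, rfl⟩, y', hy', rfl⟩
        have h2 : f (t * x * t⁻¹ * y * (t * x * t⁻¹)⁻¹ * y⁻¹) = 1 :=
          (QuotientGroup.eq_one_iff _).mpr h1
        rw [map_mul, map_mul, map_mul, map_inv, map_inv, mul_inv_eq_one,
          mul_inv_eq_iff_eq_mul] at h2
        exact h2
      have hcomm : ∀ a ∈ X'', ∀ b ∈ X'', a * b = b * a := by
        rintro _ ⟨_, ⟨t, ht, x, hx, rfl⟩, rfl⟩ _ ⟨_, ⟨t', ht', x', hx', rfl⟩, rfl⟩
        exact hcommY t ht x hx _ (h0.conj_mem x' (hX0 hx') t')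
      have hN : Noeth (closure X'') := noeth_closure_of_comm X'' hX''f hcomm
      apply hN.mono
      rw [map_normalClosure X f hfs]
      -- closure of X'' is normal
      have hnormal : (closure X'').Normal := by
        constructor
        intro n hn g
        obtain ⟨u, rfl⟩ := hfs g
        have h1 : (closure X'').map (MulAut.conj (f u)).toMonoidHom ≤ closure X'' := by
          rw [MonoidHom.map_closure, closure_le]
          rintro _ ⟨_, ⟨_, ⟨t, ht, x, hx, rfl⟩, rfl⟩, rfl⟩
          obtain ⟨t', ht', z, hz, hu⟩ := hT (u * t)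
          have h2 : f (t' * x * t'⁻¹) = f u * f (t * x * t⁻¹) * (f u)⁻¹ := by
            have h3 := hcommY 1 h1T x hx z hz
            have h4 : f z * f x * (f z)⁻¹ = f x := by
              simp only [one_mul, inv_one, mul_one] at h3
              rw [← h3]
              group
            have h5 : f (u * t) = f t' * f z := by rw [hu, map_mul]
            have h6 : f u * f (t * x * t⁻¹) * (f u)⁻¹ = f (u * t) * f x * (f (u * t))⁻¹ := by
              simp only [map_mul, map_inv]
              group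
            rw [h6, h5]
            have h7 : f t' * f z * f x * (f t' * f z)⁻¹ = f t' * (f z * f x * (f z)⁻¹) *
                (f t')⁻¹ := by group
            rw [h7, h4]
            simp only [map_mul, map_inv]
          simp only [MulEquiv.toMonoidHom_eq_coe, MonoidHom.coe_coe, MulAut.conj_apply]
          rw [SetLike.mem_coe, ← h2]
          exact Subgroup.subset_closure ⟨_, ⟨t', ht', x, hx, rfl⟩, rfl⟩
        exact h1 ⟨n, hn, rfl⟩
      apply normalClosure_le_normal
      rintro _ ⟨x, hx, rfl⟩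
      apply Subgroup.subset_closure
      exact ⟨1 * x * 1⁻¹, ⟨1, h1T, x, hx, rfl⟩, by simp⟩
    · apply ih.mono
      have : f.ker = M' := QuotientGroup.ker_mk' M'
      rw [this]
      exact inf_le_right

end relc

section malcev

variable {U : Type*} [Group U]

/-- Malcev's pair of words: `q₀ = (x, y)`, `q_{n+1} = (q z q', q' z q)`. -/
def qq (x y : U) : List U → U × U
  | [] => (x, y)
  | z :: zs => ((qq x y zs).1 * z * (qq x y zs).2, (qq x y zs).2 * z * (qq x y zs).1)

/-- Descending step in Malcev's argument. -/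
lemma malcev_step (U₀ : Subgroup U) (h0 : U₀.Normal) (T : Set U) (hT : closure T = U₀)
    (h1T : (1 : U) ∈ T) (x y : U) (n m : ℕ)
    (h : ∀ zs : List U, zs.length = n + 1 → (∀ z ∈ zs, z ∈ T) →
      (qq x y zs).1 * ((qq x y zs).2)⁻¹ ∈ relC U₀ h0 m) :
    ∀ zs : List U, zs.length = n → (∀ z ∈ zs, z ∈ T) →
      (qq x y zs).1 * ((qq x y zs).2)⁻¹ ∈ relC U₀ h0 (m + 1) := by
  intro zs hlen hzs
  set a := (qq x y zs).1 with ha
  set b := (qq x y zs).2 with hb
  have hN := relC_normal U₀ h0 m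
  set N := relC U₀ h0 m with hNdef
  have key : ∀ z ∈ T, a * z * b * (b * z * a)⁻¹ ∈ N := by
    intro z hz
    have := h (z :: zs) (by simp [hlen]) (by
      intro z' hz'
      rcases List.mem_cons.mp hz' with rfl | h'
      · exact hz
      · exact hzs z' h')
    exact this
  let f : U →* U ⧸ N := QuotientGroup.mk' N
  have key' : ∀ z ∈ T, f a * f z * f b = f b * f z * f a := by
    intro z hz
    have h2 : f (a * z * b * (b * z * a)⁻¹) = 1 := (QuotientGroup.eq_one_iff _).mpr (key z hz)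
    rw [map_mul, map_inv, mul_inv_eq_one] at h2
    simpa [map_mul] using h2
  have hab : f a * f b = f b * f a := by
    have := key' 1 h1T
    simpa using this
  have hcen : ∀ z ∈ T, f (a * b⁻¹) * f z = f z * f (a * b⁻¹) := by
    intro z hz
    have h3 := key' z hz
    rw [map_mul, map_inv]
    -- f a * z * f b = f b * z * f a
    have h4 : (f b)⁻¹ * f a = f a * (f b)⁻¹ := by
      rw [inv_mul_eq_iff_eq_mul, ← mul_assoc, ← hab, mul_assoc, mul_inv_cancel, mul_one]
    have h5 : (f b)⁻¹ * f a * f z = f z * f a * (f b)⁻¹ := by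
      rw [eq_mul_inv_iff_mul_eq, mul_assoc, mul_assoc, inv_mul_eq_iff_eq_mul, ← mul_assoc,
        ← mul_assoc]
      exact h3
    rw [← h4, h5, h4, mul_assoc]
  rw [mem_relC_succ]
  intro w hw
  rw [← hT] at hw
  refine comm_mem_of_closure N hN T (a * b⁻¹) ?_ w hw
  intro z hz
  have h6 := hcen z hz
  have h7 : f (a * b⁻¹ * z * (a * b⁻¹)⁻¹ * z⁻¹) = 1 := by
    rw [map_mul, map_mul, map_mul, map_inv, map_inv, h6]
    group
  exact (QuotientGroup.eq_one_iff _).mp h7

/-- Malcev's argument, relative form. -/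
lemma malcev_all (U₀ : Subgroup U) (h0 : U₀.Normal) (T : Set U) (hT : closure T = U₀)
    (h1T : (1 : U) ∈ T) (x y : U) :
    ∀ (n m : ℕ), (∀ zs : List U, zs.length = n → (∀ z ∈ zs, z ∈ T) →
      (qq x y zs).1 * ((qq x y zs).2)⁻¹ ∈ relC U₀ h0 m) → x * y⁻¹ ∈ relC U₀ h0 (n + m)
  | 0, m, h => by
    have := h [] rfl (by simp)
    simpa [qq] using this
  | n + 1, m, h => by
    have h1 := malcev_step U₀ h0 T hT h1T x y n m h
    have h2 := malcev_all U₀ h0 T hT h1T x y n (m + 1) h1
    have : n + 1 + m = n + (m + 1) := by ring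
    rw [this]; exact h2

/-- In a nilpotent group Malcev's pair has equal entries. -/
lemma qq_lowerCentral (K : Subgroup U) (x y : U) (hx : x ∈ K) (hy : y ∈ K) :
    ∀ zs : List U, (∀ z ∈ zs, z ∈ K) →
      (qq x y zs).1 ∈ K ∧ (qq x y zs).2 ∈ K ∧
      (qq x y zs).1 * ((qq x y zs).2)⁻¹ ∈ K.lowerCentralSeries zs.length
  | [], _ => ⟨hx, hy, mul_mem hx (inv_mem hy)⟩
  | z :: zs, h => by
    obtain ⟨h1, h2, h3⟩ := qq_lowerCentral K x y hx hy zs
      (fun z' hz' => h z' (List.mem_cons_of_mem _ hz'))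
    have hz : z ∈ K := h z List.mem_cons_self
    refine ⟨mul_mem (mul_mem h1 hz) h2, mul_mem (mul_mem h2 hz) h1, ?_⟩
    simp only [qq, List.length_cons]
    set a := (qq x y zs).1
    set b := (qq x y zs).2
    rw [Subgroup.lowerCentralSeries_succ]
    have h4 : a * z * b * (b * z * a)⁻¹ = ⁅a * b⁻¹, b * z⁆ := by
      rw [commutatorElement_def]
      group
    rw [h4]
    exact commutator_mem_commutator h3 (mul_mem h2 hz)

lemma qq_map {V : Type*} [Group V] (f : U →* V) (x y : U) :
    ∀ zs : List U, qq (f x) (f y) (zs.map f) = (f (qq x y zs).1, f (qq x y zs).2)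
  | [] => rfl
  | z :: zs => by
    simp only [List.map_cons, qq]
    rw [qq_map f x y zs]
    simp [map_mul]

end malcev

end Pool.Agent.H59.Noeth
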