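import Mathlib

set_option autoImplicit false

/-! Words, relations between words, and a compactness lemma for normal closures. -/

namespace Pool.Agent.H59.Rels

variable {A : Type*} {G : Type*} [Group G]

/-- Value of a word. -/
def ev (s : A → G) (w : List A) : G := (w.map s).prod

/-- The word as an element of the free group. -/
def fw (w : List A) : FreeGroup A := (w.map FreeGroup.of).prod

@[simp] lemma ev_nil (s : A → G) : ev s [] = 1 := rfl
@[simp] lemma fw_nil : fw ([] : List A) = 1 := rfl
@[simp] lemma ev_append (s : A → G) (u v : List A) : ev s (u ++ v) = ev s u * ev s v := by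
  simp [ev]
@[simp] lemma fw_append (u v : List A) : fw (u ++ v) = fw u * fw v := by
  simp [fw]
lemma ev_cons (s : A → G) (a : A) (v : List A) : ev s (a :: v) = s a * ev s v := by
  simp [ev]
lemma fw_cons (a : A) (v : List A) : fw (a :: v) = FreeGroup.of a * fw v := by
  simp [fw]
@[simp] lemma ev_singleton (s : A → G) (a : A) : ev s [a] = s a := by simp [ev]
@[simp] lemma fw_singleton (a : A) : fw [a] = FreeGroup.of a := by simp [fw]

lemma lift_fw (s : A → G) (w : List A) : FreeGroup.lift s (fw w) = ev s w := by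
  induction w with
  | nil => simp
  | cons a w ih => rw [fw_cons, ev_cons, map_mul, ih, FreeGroup.lift_apply_of]

/-- All relation elements `u v⁻¹` for words `u`, `v` of equal value. -/
def rels (s : A → G) : Set (FreeGroup A) :=
  {g | ∃ u v : List A, ev s u = ev s v ∧ g = fw u * (fw v)⁻¹}

lemma mem_rels (s : A → G) (u v : List A) (h : ev s u = ev s v) :
    fw u * (fw v)⁻¹ ∈ rels s := ⟨u, v, h, rfl⟩

/-- All relations follow from finitely many. -/
def FinRel (s : A → G) : Prop :=
  ∃ ρ : Set (FreeGroup A), ρ.Finite ∧ ρ ⊆ rels s ∧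
    rels s ⊆ (Subgroup.normalClosure ρ : Set (FreeGroup A))

section compactness

variable {U : Type*} [Group U]

lemma compact_one (R : Set U) (x : U) (hx : x ∈ Subgroup.normalClosure R) :
    ∃ ρ : Set U, ρ.Finite ∧ ρ ⊆ R ∧ x ∈ Subgroup.normalClosure ρ := by
  let K : Subgroup U :=
    { carrier := {x | ∃ ρ : Set U, ρ.Finite ∧ ρ ⊆ R ∧ x ∈ Subgroup.normalClosure ρ}
      one_mem' := ⟨∅, Set.finite_empty, Set.empty_subset _, one_mem _⟩
      mul_mem' := by
        rintro a b ⟨ρ, h1, h2, h3⟩ ⟨ρ', h1', h2', h3'⟩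
        refine ⟨ρ ∪ ρ', h1.union h1', Set.union_subset h2 h2', mul_mem ?_ ?_⟩
        · exact Subgroup.normalClosure_mono Set.subset_union_left h3
        · exact Subgroup.normalClosure_mono Set.subset_union_right h3'
      inv_mem' := by
        rintro a ⟨ρ, h1, h2, h3⟩
        exact ⟨ρ, h1, h2, inv_mem h3⟩ }
  have hK : K.Normal := by
    constructor
    rintro a ⟨ρ, h1, h2, h3⟩ g
    exact ⟨ρ, h1, h2, Subgroup.normalClosure_normal.conj_mem a h3 g⟩
  have hle : Subgroup.normalClosure R ≤ K := by
    apply Subgroup.normalClosure_le_normal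
    intro x hx
    exact ⟨{x}, Set.finite_singleton x, Set.singleton_subset_iff.mpr hx,
      Subgroup.subset_normalClosure rfl⟩
  exact hle hx

lemma compact (R : Set U) (X : Set U) (hX : X.Finite)
    (h : X ⊆ (Subgroup.normalClosure R : Set U)) :
    ∃ ρ : Set U, ρ.Finite ∧ ρ ⊆ R ∧ X ⊆ (Subgroup.normalClosure ρ : Set U) := by
  induction X, hX using Set.Finite.induction_on with
  | empty => exact ⟨∅, Set.finite_empty, Set.empty_subset _, Set.empty_subset _⟩
  | @insert a s ha hs ih =>
    obtain ⟨ρ, h1, h2, h3⟩ := ih ((Set.subset_insert _ _).trans h)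
    obtain ⟨ρ', h1', h2', h3'⟩ := compact_one R a (h (Set.mem_insert _ _))
    refine ⟨ρ ∪ ρ', h1.union h1', Set.union_subset h2 h2', ?_⟩
    rw [Set.insert_subset_iff]
    refine ⟨Subgroup.normalClosure_mono Set.subset_union_right h3', ?_⟩
    exact h3.trans (Subgroup.normalClosure_mono Set.subset_union_left)

end compactness

section tree

variable (s : A → G)

/-- Elements of `G` that are both of the form `u⁻¹ v` and `u' v'⁻¹`. -/
def twoSided : Set G :=
  {g | ∃ u v u' v' : List A, g = (ev s u)⁻¹ * ev s v ∧ g = ev s u' * (ev s v')⁻¹}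

/-- Two-sided elements have a canonical lift. -/
lemma canonical {g : G} (hg : g ∈ twoSided s) {u v u₁ v₁ : List A}
    (h : g = (ev s u)⁻¹ * ev s v) (h₁ : g = (ev s u₁)⁻¹ * ev s v₁) :
    (QuotientGroup.mk ((fw u)⁻¹ * fw v) : FreeGroup A ⧸ Subgroup.normalClosure (rels s)) =
      QuotientGroup.mk ((fw u₁)⁻¹ * fw v₁) := by
  obtain ⟨-, -, u', v', -, h'⟩ := hg
  have key : ∀ u v : List A, g = (ev s u)⁻¹ * ev s v →
      (QuotientGroup.mk ((fw u)⁻¹ * fw v) : FreeGroup A ⧸ Subgroup.normalClosure (rels s)) =
      QuotientGroup.mk (fw u' * (fw v')⁻¹) := by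
    intro u v h
    have h2 : ev s (u ++ u') = ev s (v ++ v') := by
      rw [ev_append, ev_append]
      rw [h] at h'
      have h3 : ev s u' = (ev s u)⁻¹ * ev s v * ev s v' := by
        rw [h']; group
      rw [h3]; group
    have h3 : (QuotientGroup.mk (fw (u ++ u') * (fw (v ++ v'))⁻¹) :
        FreeGroup A ⧸ Subgroup.normalClosure (rels s)) = 1 := by
      rw [QuotientGroup.eq_one_iff]
      exact Subgroup.subset_normalClosure (mem_rels s _ _ h2)
    rw [fw_append, fw_append] at h3
    simp only [QuotientGroup.mk_mul, QuotientGroup.mk_inv] at h3 ⊢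
    rw [mul_inv_eq_one] at h3
    rw [eq_mul_inv_iff_mul_eq, mul_assoc, ← h3]
    group
  rw [key u v h, key u₁ v₁ h₁]

open Classical in
/-- A chosen lift of a two-sided element. -/
noncomputable def sig (g : G) : FreeGroup A :=
  if h : g ∈ twoSided s then (fw h.choose)⁻¹ * fw h.choose_spec.choose else 1

lemma sig_eq {g : G} (hg : g ∈ twoSided s) {u v : List A} (h : g = (ev s u)⁻¹ * ev s v) :
    (QuotientGroup.mk (sig s g) : FreeGroup A ⧸ Subgroup.normalClosure (rels s)) =
      QuotientGroup.mk ((fw u)⁻¹ * fw v) := by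
  unfold sig
  rw [dif_pos hg]
  apply canonical s hg
  · obtain ⟨u', v', h1, -⟩ := hg.choose_spec.choose_spec
    exact h1
  · exact h

/-- The abstract tree argument: if positions of words carry a tree-like metric, then all
relations follow from finitely many. -/
theorem tree_finRel [Finite A] (d : G → G → ℕ) (nm : G → ℕ) (D : ℕ)
    (hself : ∀ g, d g g ≤ D) (hsymm : ∀ g h, d g h = d h g)
    (hstep : ∀ (w : List A) (a : A), d (ev s w) (ev s w * s a) ≤ D)
    (hear : ∀ x y z, nm y ≤ nm x → nm z ≤ nm x → d x y ≤ D → d x z ≤ D → d y z ≤ D)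
    (hfin : {k : G | ∃ u v : List A, d (ev s u) (ev s v) ≤ D ∧
      k = (ev s u)⁻¹ * ev s v}.Finite) :
    FinRel s := by
  classical
  set Sh : Set G := {k : G | ∃ u v : List A, d (ev s u) (ev s v) ≤ D ∧
      k = (ev s u)⁻¹ * ev s v} with hSh
  -- the finite set of consequences needed
  let E1 : Set (FreeGroup A) :=
    (fun p : G × G => sig s p.1 * sig s p.2 * (sig s (p.1 * p.2))⁻¹) '' (Sh ×ˢ Sh)
  let E2 : Set (FreeGroup A) := Set.range (fun a : A => (sig s (s a))⁻¹ * FreeGroup.of a)
  let E : Set (FreeGroup A) := (E1 ∪ E2) ∩ (Subgroup.normalClosure (rels s) : Set (FreeGroup A))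
  have hEfin : E.Finite :=
    (((hfin.prod hfin).image _).union (Set.finite_range _)).subset Set.inter_subset_left
  obtain ⟨ρ, hρfin, hρsub, hρ⟩ := compact (rels s) E hEfin Set.inter_subset_right
  refine ⟨ρ, hρfin, hρsub, ?_⟩
  set M := Subgroup.normalClosure ρ with hM
  -- lifted symbols
  let σ : G → FreeGroup A ⧸ M := fun g => QuotientGroup.mk (sig s g)
  -- step relation
  have hσa : ∀ a : A, σ (s a) = QuotientGroup.mk (FreeGroup.of a) := by
    intro a
    have h1 : s a ∈ twoSided s := ⟨[], [a], [a], [], by simp, by simp⟩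
    have h2 := sig_eq s h1 (u := []) (v := [a]) (by simp)
    rw [QuotientGroup.eq]
    apply hρ
    refine ⟨Or.inr ⟨a, rfl⟩, ?_⟩
    rw [QuotientGroup.eq] at h2
    simpa using h2
  rintro g ⟨u, v, huv, rfl⟩
  set g0 := ev s u with hg0
  -- positions
  let Pos : Set G := {x | ∃ w w' : List A, x = ev s w ∧ ev s w * ev s w' = g0}
  have hPosTwo : ∀ x ∈ Pos, ∀ y ∈ Pos, x⁻¹ * y ∈ twoSided s := by
    rintro x ⟨w, w', rfl, h1⟩ y ⟨t, t', rfl, h2⟩
    refine ⟨w, t, w', t', rfl, ?_⟩
    have h3 : ev s w * ev s w' = ev s t * ev s t' := by rw [h1, h2]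
    rw [eq_mul_inv_iff_mul_eq, mul_assoc, ← h3]
    group
  -- triangle relation
  have htri : ∀ x ∈ Pos, ∀ y ∈ Pos, ∀ z ∈ Pos, d x y ≤ D → d y z ≤ D → d x z ≤ D →
      σ (x⁻¹ * y) * σ (y⁻¹ * z) = σ (x⁻¹ * z) := by
    intro x hx y hy z hz hxy hyz hxz
    obtain ⟨wx, wx', rfl, -⟩ := id hx
    obtain ⟨wy, wy', rfl, -⟩ := id hy
    obtain ⟨wz, wz', rfl, -⟩ := id hz
    have e1 := sig_eq s (hPosTwo _ hx _ hy) (u := wx) (v := wy) rfl
    have e2 := sig_eq s (hPosTwo _ hy _ hz) (u := wy) (v := wz) rfl
    have e3 := sig_eq s (hPosTwo _ hx _ hz) (u := wx) (v := wz) rfl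
    have hmul : (ev s wx)⁻¹ * ev s wy * ((ev s wy)⁻¹ * ev s wz) = (ev s wx)⁻¹ * ev s wz := by
      group
    have hmem : sig s ((ev s wx)⁻¹ * ev s wy) * sig s ((ev s wy)⁻¹ * ev s wz) *
        (sig s ((ev s wx)⁻¹ * ev s wz))⁻¹ ∈ (M : Set (FreeGroup A)) := by
      apply hρ
      refine ⟨Or.inl ⟨((ev s wx)⁻¹ * ev s wy, (ev s wy)⁻¹ * ev s wz),
        ⟨⟨wx, wy, hxy, rfl⟩, ⟨wy, wz, hyz, rfl⟩⟩, ?_⟩, ?_⟩
      · simp only [hmul]
      · rw [SetLike.mem_coe, ← QuotientGroup.eq_one_iff]
        simp only [QuotientGroup.mk_mul, QuotientGroup.mk_inv] at e1 e2 e3 ⊢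
        rw [e1, e2, e3]
        group
    rw [SetLike.mem_coe, ← QuotientGroup.eq_one_iff] at hmem
    simp only [QuotientGroup.mk_mul, QuotientGroup.mk_inv] at hmem
    rw [mul_inv_eq_one] at hmem
    exact hmem
  -- the potential
  have hpot : ∀ P : Finset G, (∀ x ∈ P, x ∈ Pos) →
      ∃ φ : G → FreeGroup A ⧸ M, ∀ x ∈ P, ∀ y ∈ P, d x y ≤ D →
        (φ x)⁻¹ * φ y = σ (x⁻¹ * y) := by
    intro P
    induction P using Finset.induction_on_max_value nm with
    | empty => intro _; exact ⟨fun _ => 1, by simp⟩
    | insert a P' haP hmax ih =>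
      intro hP
      obtain ⟨φ, hφ⟩ := ih (fun x hx => hP x (Finset.mem_insert_of_mem hx))
      have haPos : a ∈ Pos := hP a (Finset.mem_insert_self _ _)
      have hPos' : ∀ x ∈ P', x ∈ Pos := fun x hx => hP x (Finset.mem_insert_of_mem hx)
      have hσ1 : σ 1 = 1 := by
        have := htri a haPos a haPos a haPos (hself a) (hself a) (hself a)
        rw [inv_mul_cancel] at this
        exact mul_eq_left.mp this
      by_cases hex : ∃ y ∈ P', d a y ≤ D
      · obtain ⟨y0, hy0, hdy0⟩ := hex
        refine ⟨Function.update φ a (φ y0 * σ (y0⁻¹ * a)), ?_⟩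
        have hau : ∀ y ∈ P', d a y ≤ D →
            (φ y0 * σ (y0⁻¹ * a))⁻¹ * φ y = σ (a⁻¹ * y) := by
          intro y hy hay
          have h1 : d y0 y ≤ D := hear a y0 y (hmax y0 hy0) (hmax y hy) hdy0 hay
          have h2 := hφ y0 hy0 y hy h1
          have h3 := htri y0 (hPos' y0 hy0) a haPos y (hPos' y hy)
            (by rw [hsymm]; exact hdy0) hay h1
          rw [mul_inv_rev, mul_assoc, h2, ← h3]
          group
        intro x hx y hy hxy
        rw [Finset.mem_insert] at hx hy
        by_cases hxa : x = a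
        · subst hxa
          by_cases hya : y = x
          · subst hya
            simp [hσ1]
          · have hy' : y ∈ P' := hy.resolve_left hya
            rw [Function.update_self, Function.update_of_ne hya]
            exact hau y hy' hxy
        · have hx' : x ∈ P' := hx.resolve_left hxa
          by_cases hya : y = a
          · subst hya
            rw [Function.update_self, Function.update_of_ne hxa]
            have h1 := hau x hx' (by rw [hsymm]; exact hxy)
            have h2 := htri x (hPos' x hx') y haPos x (hPos' x hx') hxy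
              (by rw [hsymm]; exact hxy) (hself x)
            rw [inv_mul_cancel, hσ1] at h2
            have h3 : σ (x⁻¹ * y) = (σ (y⁻¹ * x))⁻¹ := eq_inv_of_mul_eq_one_left h2
            rw [h3, ← h1]
            group
          · have hy' : y ∈ P' := hy.resolve_left hya
            rw [Function.update_of_ne hxa, Function.update_of_ne hya]
            exact hφ x hx' y hy' hxy
      · push Not at hex
        refine ⟨Function.update φ a 1, ?_⟩
        intro x hx y hy hxy
        rw [Finset.mem_insert] at hx hy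
        by_cases hxa : x = a
        · subst hxa
          by_cases hya : y = x
          · subst hya
            simp [hσ1]
          · have hy' : y ∈ P' := hy.resolve_left hya
            exact absurd hxy (not_le.mpr (hex y hy'))
        · have hx' : x ∈ P' := hx.resolve_left hxa
          by_cases hya : y = a
          · subst hya
            rw [hsymm] at hxy
            exact absurd hxy (not_le.mpr (hex x hx'))
          · have hy' : y ∈ P' := hy.resolve_left hya
            rw [Function.update_of_ne hxa, Function.update_of_ne hya]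
            exact hφ x hx' y hy' hxy
  -- apply to the positions of both words
  let P : Finset G := ((u.inits ++ v.inits).map (ev s)).toFinset
  have hP : ∀ x ∈ P, x ∈ Pos := by
    intro x hx
    simp only [P, List.mem_toFinset, List.mem_map, List.mem_append, List.mem_inits] at hx
    obtain ⟨w, hw | hw, rfl⟩ := hx
    · obtain ⟨w', hw'⟩ := hw
      exact ⟨w, w', rfl, by rw [← ev_append, hw']⟩
    · obtain ⟨w', hw'⟩ := hw
      exact ⟨w, w', rfl, by rw [← ev_append, hw', huv]⟩
  obtain ⟨φ, hφ⟩ := hpot P hP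
  have hmemP : ∀ w : List A, (w <+: u ∨ w <+: v) → ev s w ∈ P := by
    intro w hw
    simp only [P, List.mem_toFinset, List.mem_map, List.mem_append, List.mem_inits]
    exact ⟨w, hw, rfl⟩
  have hwalk : ∀ w : List A, (w <+: u ∨ w <+: v) →
      φ (ev s w) = φ 1 * QuotientGroup.mk (fw w) := by
    intro w
    induction w using List.reverseRecOn with
    | nil => intro _; simp
    | append_singleton w a ih =>
      intro hw
      have hw' : w <+: u ∨ w <+: v := by
        rcases hw with h | h
        · exact Or.inl ((List.prefix_append w [a]).trans h)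
        · exact Or.inr ((List.prefix_append w [a]).trans h)
      have h1 := ih hw'
      have h2 := hφ (ev s w) (hmemP w hw') (ev s (w ++ [a])) (hmemP _ hw) (by
        rw [ev_append, ev_singleton]; exact hstep w a)
      have h3 : (ev s w)⁻¹ * ev s (w ++ [a]) = s a := by
        rw [ev_append, ev_singleton]; group
      rw [h3, hσa, h1] at h2
      rw [fw_append, fw_singleton, QuotientGroup.mk_mul, ← h2]
      group
  have h1 := hwalk u (Or.inl (List.prefix_refl u))
  have h2 := hwalk v (Or.inr (List.prefix_refl v))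
  rw [← hg0] at h1
  rw [← huv, h1] at h2
  have h3 := mul_left_cancel h2
  rw [SetLike.mem_coe, ← QuotientGroup.eq_one_iff, QuotientGroup.mk_mul, QuotientGroup.mk_inv,
    h3, mul_inv_cancel]

end tree

end Pool.Agent.H59.Rels
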