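import Mathlib
import Pool.Agent.H59.Rels
import Pool.Agent.H59.FreeMetric

set_option autoImplicit false

/-! All relations of finitely many elements of a virtually free group (as a semigroup) follow
from finitely many, as group relations. -/

namespace Pool.Agent.H59.VirtFree

open Rels FreeMetric

variable {A : Type*} [Finite A] {G : Type*} [Group G]

theorem finRel_of_virtuallyFree (s : A → G) (F₀ : Subgroup G) [F₀.FiniteIndex]
    [IsFreeGroup F₀] : FinRel s := by
  classical
  let X := IsFreeGroup.Generators F₀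
  let e : F₀ ≃* FreeGroup X := IsFreeGroup.toFreeGroup F₀
  let r : G ⧸ F₀ → G := Quotient.out
  have hr : ∀ c : G ⧸ F₀, (QuotientGroup.mk (r c) : G ⧸ F₀) = c := fun c => Quotient.out_eq' c
  let q : G → G ⧸ F₀ := fun g => QuotientGroup.mk g⁻¹
  have hmem : ∀ g : G, g * r (q g) ∈ F₀ := by
    intro g
    have h1 := hr (q g)
    have h2 : (QuotientGroup.mk (r (q g)) : G ⧸ F₀) = QuotientGroup.mk g⁻¹ := h1
    rw [eq_comm, QuotientGroup.eq] at h2
    simpa using h2
  let f : G → F₀ := fun g => ⟨g * r (q g), hmem g⟩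
  let t : G → G := fun g => (r (q g))⁻¹
  have hft : ∀ g : G, g = (f g : G) * t g := by
    intro g
    simp only [f, t]
    group
  have hqt : ∀ (g x : G), q (g * x) = q (t g * x) := by
    intro g x
    simp only [q]
    rw [QuotientGroup.eq]
    have h1 : (g * x)⁻¹⁻¹ * (t g * x)⁻¹ = g * (t g)⁻¹ := by group
    have h2 : g * (t g)⁻¹ = (f g : G) := by simp [t, f]
    rw [h1, h2]
    exact (f g).2
  have hfmul : ∀ g x : G, f (g * x) = f g * f (t g * x) := by
    intro g x
    apply Subtype.ext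
    simp only [f, Subgroup.coe_mul]
    rw [hqt g x]
    have h1 : g * r (q g) * (t g * x * r (q (t g * x))) =
        g * (r (q g) * t g) * x * r (q (t g * x)) := by group
    have h2 : r (q g) * t g = 1 := by simp [t]
    rw [h1, h2, mul_one]
  let φ : G → FreeGroup X := fun g => e (f g)
  have hφmul : ∀ g x : G, φ (g * x) = φ g * φ (t g * x) := by
    intro g x
    simp only [φ]
    rw [hfmul, map_mul]
  -- finite set of steps
  have : Finite (G ⧸ F₀) := inferInstance
  have := Fintype.ofFinite (G ⧸ F₀)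
  have := Fintype.ofFinite A
  let T : Set G := Set.range (fun c : G ⧸ F₀ => (r c)⁻¹)
  have hTfin : T.Finite := Set.finite_range _
  have htT : ∀ g, t g ∈ T := fun g => ⟨q g, rfl⟩
  let D : ℕ := Finset.univ.sup (fun p : (G ⧸ F₀) × A => (φ ((r p.1)⁻¹ * s p.2)).norm)
  have hD : ∀ (g : G) (a : A), (φ (t g * s a)).norm ≤ D := by
    intro g a
    exact Finset.le_sup (f := fun p : (G ⧸ F₀) × A => (φ ((r p.1)⁻¹ * s p.2)).norm)
      (Finset.mem_univ (q g, a))
  let S0 : Set X := {x | (∃ p : (G ⧸ F₀) × A, ∃ y ∈ (φ ((r p.1)⁻¹ * s p.2)).toWord, y.1 = x) ∨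
    ∃ y ∈ (φ 1).toWord, y.1 = x}
  have hS0 : S0.Finite := by
    have h1 : S0 = (⋃ p : (G ⧸ F₀) × A,
        (Prod.fst '' {y | y ∈ (φ ((r p.1)⁻¹ * s p.2)).toWord})) ∪
          (Prod.fst '' {y | y ∈ (φ 1).toWord}) := by
      ext x
      simp [S0]
    rw [h1]
    apply Set.Finite.union
    · apply Set.finite_iUnion
      intro p
      exact (List.finite_toSet _).image _
    · exact (List.finite_toSet _).image _
  have hlet : ∀ w : List A, φ (ev s w) ∈ lettersIn S0 := by
    intro w
    induction w using List.reverseRecOn with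
    | nil =>
      intro p hp
      exact Or.inr ⟨p, hp, rfl⟩
    | append_singleton w a ih =>
      rw [ev_append, ev_singleton, hφmul]
      apply mul_mem ih
      intro p hp
      exact Or.inl ⟨(q (ev s w), a), p, hp, rfl⟩
  refine tree_finRel s (fun g h => ((φ g)⁻¹ * φ h).norm) (fun g => (φ g).norm) D
    ?_ ?_ ?_ ?_ ?_
  · intro g
    simp
  · intro g h
    exact norm_inv_mul_comm _ _
  · intro w a
    change ((φ (ev s w))⁻¹ * φ (ev s w * s a)).norm ≤ D
    rw [hφmul, inv_mul_cancel_left]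
    exact hD _ a
  · intro x y z h1 h2 h3 h4
    exact ear D _ _ _ h1 h2 h3 h4
  · have hball := finite_ball S0 hS0 D
    have hfin : (((T ×ˢ T) ×ˢ {g : FreeGroup X | g ∈ lettersIn S0 ∧ g.norm ≤ D}) :
        Set ((G × G) × FreeGroup X)).Finite := (hTfin.prod hTfin).prod hball
    refine (hfin.image (fun p => p.1.1⁻¹ * ((e.symm p.2 : F₀) : G) * p.1.2)).subset ?_
    rintro k ⟨u, v, huv, rfl⟩
    refine ⟨((t (ev s u), t (ev s v)), (φ (ev s u))⁻¹ * φ (ev s v)),
      ⟨⟨htT _, htT _⟩, ?_, huv⟩, ?_⟩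
    · exact mul_mem (inv_mem (hlet u)) (hlet v)
    · simp only [φ, map_mul, map_inv, MulEquiv.symm_apply_apply, Subgroup.coe_mul,
        Subgroup.coe_inv]
      conv_rhs => rw [hft (ev s u), hft (ev s v)]
      group

end Pool.Agent.H59.VirtFree
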