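import Mathlib
import Pool.Agent.H59.VirtFree
import Pool.Agent.H59.Noeth

set_option autoImplicit false

/-! Finitely many relations suffice for subsemigroups of `F × H` with `F` virtually free and
`H` virtually nilpotent. -/

namespace Pool.Agent.H59.ProdFinRel

open Rels Noeth Subgroup

section words

variable {A : Type*} {G : Type*} [Group G]

/-- Malcev's pair of words. -/
def qw (x y : List A) : List (List A) → List A × List A
  | [] => (x, y)
  | z :: zs => ((qw x y zs).1 ++ z ++ (qw x y zs).2, (qw x y zs).2 ++ z ++ (qw x y zs).1)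

lemma ev_qw (s : A → G) (x y : List A) : ∀ zs : List (List A),
    qq (ev s x) (ev s y) (zs.map (ev s)) = (ev s (qw x y zs).1, ev s (qw x y zs).2)
  | [] => rfl
  | z :: zs => by
    simp only [List.map_cons, qq, qw]
    rw [ev_qw s x y zs]
    simp [mul_assoc]

lemma fw_qw (x y : List A) : ∀ zs : List (List A),
    qq (fw x) (fw y) (zs.map fw) = (fw (qw x y zs).1, fw (qw x y zs).2)
  | [] => rfl
  | z :: zs => by
    simp only [List.map_cons, qq, qw]
    rw [fw_qw x y zs]
    simp [mul_assoc]

lemma qq_self (x : G) : ∀ zs : List G, (qq x x zs).1 = (qq x x zs).2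
  | [] => rfl
  | z :: zs => by
    simp only [qq]
    rw [qq_self x zs]

end words

variable {A : Type*} {F H : Type*} [Group F] [Group H]

/-- In a finite group the values of words form a group: inverses are values of words. -/
lemma exists_word_inv {Q : Type*} [Group Q] [Finite Q] (r : A → Q) (w : List A) :
    ∃ w' : List A, ev r w' = (ev r w)⁻¹ := by
  have h1 : ∀ n : ℕ, ev r ((List.replicate n w).flatten) = (ev r w) ^ n := by
    intro n
    induction n with
    | zero => simp
    | succ n ih => rw [List.replicate_succ, List.flatten_cons, ev_append, ih, pow_succ']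
  refine ⟨(List.replicate (Nat.card Q - 1) w).flatten, ?_⟩
  rw [h1]
  apply eq_inv_of_mul_eq_one_left
  rw [← pow_succ]
  have : Nat.card Q - 1 + 1 = Nat.card Q := Nat.sub_add_cancel Nat.card_pos
  rw [this, pow_card_eq_one']

/-- The kernel of a map of a free group to a finite group is generated by positive words. -/
lemma ker_generated {Q : Type*} [Group Q] [Finite Q] (r : A → Q) :
    closure {g : FreeGroup A | ∃ w : List A, ev r w = 1 ∧ g = fw w} =
      (FreeGroup.lift r).ker := by
  set T : Set (FreeGroup A) := {g | ∃ w : List A, ev r w = 1 ∧ g = fw w} with hT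
  apply le_antisymm
  · rw [closure_le]
    rintro _ ⟨w, hw, rfl⟩
    rw [SetLike.mem_coe, MonoidHom.mem_ker, lift_fw, hw]
  · -- words with equal value in `Q` are congruent on both sides
    have hmem : ∀ w : List A, ev r w = 1 → fw w ∈ closure T := fun w hw =>
      subset_closure ⟨w, hw, rfl⟩
    have hright : ∀ u v : List A, ev r u = ev r v → fw u * (fw v)⁻¹ ∈ closure T := by
      intro u v huv
      obtain ⟨w, hw⟩ := exists_word_inv r v
      have h1 : fw (u ++ w) ∈ closure T := hmem _ (by rw [ev_append, hw, huv, mul_inv_cancel])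
      have h2 : fw (v ++ w) ∈ closure T := hmem _ (by rw [ev_append, hw, mul_inv_cancel])
      have h3 := mul_mem h1 (inv_mem h2)
      have h4 : fw (u ++ w) * (fw (v ++ w))⁻¹ = fw u * (fw v)⁻¹ := by
        rw [fw_append, fw_append]; group
      rwa [h4] at h3
    -- every element is congruent to a positive word
    have hpos : ∀ g : FreeGroup A, ∃ w : List A, ev r w = FreeGroup.lift r g ∧
        g * (fw w)⁻¹ ∈ closure T := by
      intro g
      induction g using FreeGroup.induction_on with
      | C1 => exact ⟨[], by simp, by simp⟩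
      | of a => exact ⟨[a], by simp, by simp⟩
      | inv_of a _ =>
        obtain ⟨w, hw⟩ := exists_word_inv r [a]
        refine ⟨w, by rw [hw]; simp, ?_⟩
        have h1 : fw (w ++ [a]) ∈ closure T := hmem _ (by rw [ev_append, hw, inv_mul_cancel])
        have h2 := inv_mem h1
        have h3 : (fw (w ++ [a]))⁻¹ = (FreeGroup.of a)⁻¹ * (fw w)⁻¹ := by
          rw [fw_append, fw_singleton]; group
        rwa [h3] at h2
      | mul g h ihg ihh =>
        obtain ⟨w, hw1, hw2⟩ := ihg
        obtain ⟨w', hw1', hw2'⟩ := ihh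
        -- conjugation of elements of the closure by positive words
        have hconj : ∀ t ∈ closure T, fw w * t * (fw w)⁻¹ ∈ closure T := by
          intro t ht
          induction ht using closure_induction with
          | mem t ht =>
            obtain ⟨v, hv, rfl⟩ := ht
            have := hright (w ++ v) w (by rw [ev_append, hv, mul_one])
            rwa [fw_append] at this
          | one => simp
          | mul a b _ _ ha hb =>
            have h3 := mul_mem ha hb
            have h4 : fw w * a * (fw w)⁻¹ * (fw w * b * (fw w)⁻¹) =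
                fw w * (a * b) * (fw w)⁻¹ := by group
            rwa [h4] at h3
          | inv a _ ha =>
            have h3 := inv_mem ha
            have h4 : (fw w * a * (fw w)⁻¹)⁻¹ = fw w * a⁻¹ * (fw w)⁻¹ := by group
            rwa [h4] at h3
        refine ⟨w ++ w', by rw [ev_append, hw1, hw1', map_mul], ?_⟩
        have h3 := mul_mem hw2 (hconj _ hw2')
        have h4 : g * (fw w)⁻¹ * (fw w * (h * (fw w')⁻¹) * (fw w)⁻¹) =
            g * h * (fw (w ++ w'))⁻¹ := by
          rw [fw_append]; group
        rwa [h4] at h3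
    intro g hg
    obtain ⟨w, hw1, hw2⟩ := hpos g
    rw [MonoidHom.mem_ker] at hg
    rw [hg] at hw1
    have h3 := mul_mem hw2 (hmem w hw1)
    rwa [inv_mul_cancel_right] at h3

theorem prod_finRel [Finite A] (s : A → F × H) (F₀ : Subgroup F) [F₀.FiniteIndex] [IsFreeGroup F₀]
    (K : Subgroup H) [hKn : K.Normal] [K.FiniteIndex] (c : ℕ)
    (hK : K.lowerCentralSeries c = ⊥) : FinRel s := by
  classical
  -- the projection to `F × H / K`
  let s1 : A → F × (H ⧸ K) := fun a => ((s a).1, (QuotientGroup.mk (s a).2 : H ⧸ K))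
  let p : F × H →* F × (H ⧸ K) := MonoidHom.prodMap (MonoidHom.id F) (QuotientGroup.mk' K)
  have hs1 : ∀ w : List A, ev s1 w = p (ev s w) := by
    intro w
    induction w with
    | nil => simp
    | cons a w ih =>
      rw [ev_cons, ev_cons, map_mul, ih]
      rfl
  let r : A → H ⧸ K := fun a => (s1 a).2
  have hr : ∀ w : List A, ev r w = (ev s1 w).2 := by
    intro w
    induction w with
    | nil => simp
    | cons a w ih =>
      rw [ev_cons, ev_cons, Prod.snd_mul, ih]
  have hr' : ∀ w : List A, ev r w = (QuotientGroup.mk (ev s w).2 : H ⧸ K) := by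
    intro w
    rw [hr, hs1]
    rfl
  have hs1fst : ∀ w : List A, (ev s1 w).1 = (ev s w).1 := by
    intro w
    rw [hs1]
    rfl
  -- step 1: virtually free quotient
  have hfree : IsFreeGroup (F₀.prod (⊥ : Subgroup (H ⧸ K))) := by
    have e : (F₀.prod (⊥ : Subgroup (H ⧸ K))) ≃* F₀ :=
      (Subgroup.prodEquiv F₀ (⊥ : Subgroup (H ⧸ K))).trans MulEquiv.prodUnique
    exact IsFreeGroup.ofMulEquiv e.symm
  have hfin : Finite (H ⧸ K) := inferInstance
  have hbot : (⊥ : Subgroup (H ⧸ K)).FiniteIndex := inferInstance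
  have hfi : (F₀.prod (⊥ : Subgroup (H ⧸ K))).FiniteIndex := by
    constructor
    rw [Subgroup.index_prod]
    exact mul_ne_zero Subgroup.FiniteIndex.index_ne_zero Subgroup.FiniteIndex.index_ne_zero
  have : FinRel s1 := VirtFree.finRel_of_virtuallyFree s1 (F₀.prod (⊥ : Subgroup (H ⧸ K)))
  obtain ⟨ρ1, hρ1f, hρ1s, hρ1⟩ := this
  have hsub : rels s ⊆ rels s1 := by
    rintro _ ⟨u, v, huv, rfl⟩
    exact ⟨u, v, by rw [hs1, hs1, huv], rfl⟩
  set N := normalClosure (rels s) with hN
  -- the finite index subgroup
  let θ : FreeGroup A →* H ⧸ K := FreeGroup.lift r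
  let FG0 : Subgroup (FreeGroup A) := θ.ker
  have hFG0n : FG0.Normal := MonoidHom.normal_ker θ
  have hFG0fi : FG0.FiniteIndex := inferInstance
  have hFG0fg : FG0.FG := by
    have h1 : Group.FG (FreeGroup A) := inferInstance
    have h2 : Group.FG FG0 := inferInstance
    exact (Group.fg_iff_subgroup_fg FG0).mp h2
  obtain ⟨Y, hY, hYf⟩ := (Subgroup.fg_iff _).mp hFG0fg
  let T : Set (FreeGroup A) :=
    insert 1 (Set.range (fun q : FreeGroup A ⧸ FG0 => Quotient.out q))
  have hTf : T.Finite := by
    have : Finite (FreeGroup A ⧸ FG0) := inferInstance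
    exact (Set.finite_range _).insert _
  have hT : ∀ u : FreeGroup A, ∃ t ∈ T, ∃ z ∈ FG0, u = t * z := by
    intro u
    refine ⟨Quotient.out (QuotientGroup.mk u : FreeGroup A ⧸ FG0), Or.inr ⟨_, rfl⟩,
      (Quotient.out (QuotientGroup.mk u : FreeGroup A ⧸ FG0))⁻¹ * u, ?_, by group⟩
    rw [← QuotientGroup.eq]
    exact Quotient.out_eq' _
  have hρ1FG0 : ρ1 ⊆ FG0 := by
    intro g hg
    obtain ⟨u, v, huv, rfl⟩ := hρ1s hg
    rw [SetLike.mem_coe, MonoidHom.mem_ker, map_mul, map_inv, mul_inv_eq_one]
    change FreeGroup.lift r (fw u) = FreeGroup.lift r (fw v)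
    rw [lift_fw, lift_fw, hr, hr, huv]
  -- Claim A
  have claimA : ∀ (f : FreeGroup A →* FreeGroup A ⧸ N) (hf : f = QuotientGroup.mk' N)
      (h0 : (FG0.map f).Normal), ∀ g ∈ rels s1, f g ∈ relC (FG0.map f) h0 c := by
    intro f hf h0 g hg
    obtain ⟨u, v, huv, rfl⟩ := hg
    obtain ⟨w, hw⟩ := exists_word_inv r u
    set x := u ++ w with hx
    set y := v ++ w with hy
    have hxy : ev s1 x = ev s1 y := by rw [hx, hy, ev_append, ev_append, huv]
    have hrx : ev r x = 1 := by rw [hx, ev_append, hw, mul_inv_cancel]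
    have hry : ev r y = 1 := by rw [hr, ← hxy, ← hr]; exact hrx
    let Ts : Set (FreeGroup A ⧸ N) := f '' {g : FreeGroup A | ∃ w : List A, ev r w = 1 ∧ g = fw w}
    have hTs : closure Ts = FG0.map f := by
      change closure (f '' _) = _
      rw [← MonoidHom.map_closure, ker_generated]
    have h1Ts : (1 : FreeGroup A ⧸ N) ∈ Ts := ⟨1, ⟨[], by simp, by simp⟩, by simp⟩
    have h1 := malcev_all (FG0.map f) h0 Ts hTs h1Ts (f (fw x)) (f (fw y)) c 0 ?_
    · have h2 : f (fw x) * (f (fw y))⁻¹ = f (fw u * (fw v)⁻¹) := by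
        rw [hx, hy, fw_append, fw_append]
        simp only [map_mul, map_inv]
        group
      rw [h2, add_zero] at h1
      exact h1
    · intro zs hlen hzs
      -- lift to words
      have hlift : ∀ zs : List (FreeGroup A ⧸ N), (∀ z ∈ zs, z ∈ Ts) →
          ∃ ws : List (List A), (∀ w ∈ ws, ev r w = 1) ∧ ws.map (fun w => f (fw w)) = zs := by
        intro zs
        induction zs with
        | nil => intro _; exact ⟨[], by simp, rfl⟩
        | cons z zs ih =>
          intro h
          obtain ⟨ws, h1, h2⟩ := ih (fun z' hz' => h z' (List.mem_cons_of_mem _ hz'))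
          obtain ⟨_, ⟨w0, hw0, rfl⟩, hz⟩ := h z List.mem_cons_self
          refine ⟨w0 :: ws, ?_, ?_⟩
          · intro w hw
            rcases List.mem_cons.mp hw with rfl | hw
            · exact hw0
            · exact h1 w hw
          · rw [List.map_cons, h2, hz]
      obtain ⟨ws, hws1, hws2⟩ := hlift zs hzs
      have hwslen : ws.length = c := by
        rw [← hlen, ← hws2, List.length_map]
      -- the two words have equal value
      have hval : ev s (qw x y ws).1 = ev s (qw x y ws).2 := by
        have e1 := ev_qw s x y ws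
        apply Prod.ext
        · have e2 := qq_map (MonoidHom.fst F H) (ev s x) (ev s y) (ws.map (ev s))
          have e3 : MonoidHom.fst F H (ev s x) = MonoidHom.fst F H (ev s y) := by
            simp only [MonoidHom.coe_fst]
            rw [← hs1fst, ← hs1fst, hxy]
          rw [e3, e1] at e2
          have e4 := qq_self (MonoidHom.fst F H (ev s y))
            ((ws.map (ev s)).map (MonoidHom.fst F H))
          rw [e2] at e4
          exact e4
        · have e2 := qq_map (MonoidHom.snd F H) (ev s x) (ev s y) (ws.map (ev s))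
          have hxK : MonoidHom.snd F H (ev s x) ∈ K := by
            rw [hr'] at hrx
            exact (QuotientGroup.eq_one_iff _).mp hrx
          have hyK : MonoidHom.snd F H (ev s y) ∈ K := by
            rw [hr'] at hry
            exact (QuotientGroup.eq_one_iff _).mp hry
          have e5 := (qq_lowerCentral K _ _ hxK hyK
            ((ws.map (ev s)).map (MonoidHom.snd F H)) (by
              intro z hz
              rw [List.map_map, List.mem_map] at hz
              obtain ⟨w0, hw0, rfl⟩ := hz
              have h3 := hws1 w0 hw0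
              rw [hr'] at h3
              exact (QuotientGroup.eq_one_iff _).mp h3)).2.2
          rw [List.length_map, List.length_map, hwslen, hK, Subgroup.mem_bot, e2, e1,
            mul_inv_eq_one] at e5
          exact e5
      have hrel : fw (qw x y ws).1 * (fw (qw x y ws).2)⁻¹ ∈ N :=
        subset_normalClosure (mem_rels s _ _ hval)
      have e6 : qq (f (fw x)) (f (fw y)) zs =
          (f (fw (qw x y ws).1), f (fw (qw x y ws).2)) := by
        rw [← hws2]
        have e7 := qq_map f (fw x) (fw y) (ws.map fw)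
        rw [fw_qw, List.map_map] at e7
        exact e7
      rw [e6, relC_zero, Subgroup.mem_bot]
      simp only
      rw [← map_inv, ← map_mul, hf]
      exact (QuotientGroup.eq_one_iff _).mpr hrel
  -- finitely many relations force relative hypercentrality
  have hiter : iterC ρ1 Y c ⊆ (N : Set (FreeGroup A)) := by
    have h0 : (FG0.map (QuotientGroup.mk' N)).Normal :=
      hFG0n.map _ (QuotientGroup.mk'_surjective N)
    have h1 : (QuotientGroup.mk' N) '' ρ1 ⊆
        (relC (FG0.map (QuotientGroup.mk' N)) h0 (c + 0) : Set _) := by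
      rintro _ ⟨g, hg, rfl⟩
      exact claimA _ rfl h0 g (hρ1s hg)
    have h2 := iterC_of_mem (FG0.map (QuotientGroup.mk' N)) h0 ((QuotientGroup.mk' N) '' ρ1)
      ((QuotientGroup.mk' N) '' Y) (by
        rintro _ ⟨y, hy, rfl⟩
        refine ⟨y, ?_, rfl⟩
        rw [SetLike.mem_coe, ← hY]
        exact subset_closure hy) c 0 h1
    rw [← iterC_image] at h2
    intro g hg
    have h3 := h2 ⟨g, hg, rfl⟩
    rw [relC_zero] at h3
    exact (QuotientGroup.eq_one_iff _).mp h3
  obtain ⟨ρ0, hρ0f, hρ0s, hρ0⟩ := compact (rels s) _ (iterC_finite hρ1f hYf c) hiter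
  set M := normalClosure ρ0 with hM
  let f : FreeGroup A →* FreeGroup A ⧸ M := QuotientGroup.mk' M
  have hfs : Function.Surjective f := QuotientGroup.mk'_surjective M
  have h0 : (FG0.map f).Normal := hFG0n.map _ hfs
  have hXC : f '' ρ1 ⊆ (relC (FG0.map f) h0 (c + 0) : Set _) := by
    apply mem_of_iterC (FG0.map f) h0 (f '' ρ1) (f '' Y)
    · rw [← MonoidHom.map_closure, hY]
    · rw [← iterC_image]
      rintro _ ⟨g, hg, rfl⟩
      rw [relC_zero]
      exact (QuotientGroup.eq_one_iff _).mpr (hρ0 hg)
  have hnoeth : Noeth (normalClosure (f '' ρ1)) := by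
    apply noeth_normalClosure (FG0.map f) h0 (f '' Y) (f '' T) (hYf.image f) (hTf.image f)
      (by rw [← MonoidHom.map_closure, hY]) ⟨1, Or.inl rfl, map_one f⟩ ?_ (c + 0) _
      (hρ1f.image f) ?_ hXC
    · intro u
      obtain ⟨u, rfl⟩ := hfs u
      obtain ⟨t, ht, z, hz, rfl⟩ := hT u
      exact ⟨f t, ⟨t, ht, rfl⟩, f z, ⟨z, hz, rfl⟩, map_mul f t z⟩
    · rintro _ ⟨g, hg, rfl⟩
      exact ⟨g, hρ1FG0 hg, rfl⟩
  have hNfg : (N.map f).FG := by
    apply hnoeth
    rw [← map_normalClosure ρ1 f hfs]
    apply Subgroup.map_mono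
    apply normalClosure_le_normal
    exact hsub.trans hρ1
  obtain ⟨S, hS, hSf⟩ := (Subgroup.fg_iff _).mp hNfg
  have hSlift : ∀ x ∈ S, ∃ g ∈ N, f g = x := by
    intro x hx
    have : x ∈ N.map f := by rw [← hS]; exact subset_closure hx
    exact this
  choose! lift hlift1 hlift2 using hSlift
  obtain ⟨ρ2, hρ2f, hρ2s, hρ2⟩ := compact (rels s) (lift '' S) (hSf.image _) (by
    rintro _ ⟨x, hx, rfl⟩
    exact hlift1 x hx)
  refine ⟨ρ0 ∪ ρ2, hρ0f.union hρ2f, Set.union_subset hρ0s hρ2s, ?_⟩
  intro g hg
  have hg1 : f g ∈ closure S := by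
    rw [hS]
    exact ⟨g, subset_normalClosure hg, rfl⟩
  have hg2 : closure S ≤ (closure (lift '' S)).map f := by
    rw [closure_le]
    intro x hx
    exact ⟨lift x, subset_closure ⟨x, hx, rfl⟩, hlift2 x hx⟩
  obtain ⟨g', hg', hgg'⟩ := hg2 hg1
  have hg'2 : g' ∈ normalClosure (ρ0 ∪ ρ2) := by
    have : closure (lift '' S) ≤ normalClosure (ρ0 ∪ ρ2) := by
      rw [closure_le]
      exact hρ2.trans (normalClosure_mono Set.subset_union_right)
    exact this hg'
  have hk : g'⁻¹ * g ∈ M := by
    rw [← QuotientGroup.eq]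
    exact hgg'
  have hk2 : g'⁻¹ * g ∈ normalClosure (ρ0 ∪ ρ2) :=
    normalClosure_mono Set.subset_union_left hk
  have := mul_mem hg'2 hk2
  rw [mul_inv_cancel_left] at this
  exact this

end Pool.Agent.H59.ProdFinRel
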